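import Pool.Agent.W873.RS.Stm

set_option autoImplicit false

/-!
# Task LAW of project RS: projections on unit vectors are independent standard Gaussians
-/

open MeasureTheory ProbabilityTheory Complex

namespace Pool.Agent.W202.RS.LAW

open Pool.Agent.W873.RS

theorem gm_ip {κ : Type} [Fintype κ] (u : κ → ℝ) (hu : ∑ j, u j ^ 2 = 1) :
    (gm κ).map (fun z => ip z u) = gaussianReal 0 1 := by
  have hm : Measurable (fun z : κ → ℝ => ip z u) := by unfold ip; fun_prop
  have : IsProbabilityMeasure ((gm κ).map (fun z => ip z u)) :=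
    Measure.isProbabilityMeasure_map hm.aemeasurable
  apply Measure.ext_of_charFun
  ext t
  rw [charFun_gaussianReal, charFun_apply_real, integral_map hm.aemeasurable (by fun_prop)]
  unfold gm ip
  have h1 : ∀ z : κ → ℝ, cexp ((t : ℂ) * ((∑ j, z j * u j : ℝ) : ℂ) * I) =
      ∏ j, cexp (((t * u j : ℝ) : ℂ) * (z j : ℂ) * I) := by
    intro z
    rw [← Complex.exp_sum]
    congr 1
    push_cast
    rw [Finset.mul_sum, Finset.sum_mul]
    apply Finset.sum_congr rfl
    intro j _
    ring
  simp_rw [h1]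
  rw [integral_fintype_prod_eq_prod (f := fun j (x : ℝ) => cexp (((t * u j : ℝ) : ℂ) * (x : ℂ) * I))]
  have h2 : ∀ j, ∫ x, cexp (((t * u j : ℝ) : ℂ) * (x : ℂ) * I) ∂gaussianReal 0 1 =
      cexp (-((t * u j : ℝ) : ℂ) ^ 2 / 2) := by
    intro j
    rw [← charFun_apply_real, charFun_gaussianReal]
    congr 1
    push_cast
    ring
  simp_rw [h2]
  rw [← Complex.exp_sum]
  congr 1
  have h3 : ∑ j, -((t * u j : ℝ) : ℂ) ^ 2 / 2 = -((t : ℂ) ^ 2) / 2 * ((∑ j, u j ^ 2 : ℝ) : ℂ) := by
    push_cast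
    rw [Finset.mul_sum]
    apply Finset.sum_congr rfl
    intro j _
    ring
  rw [h3, hu]
  push_cast
  ring

theorem main : Pool.Agent.W873.RS.LAW := by
  intro s κ _ u hu
  have hm : ∀ i, Measurable (fun z : κ i → ℝ => ip z (u i)) := by
    intro i; unfold ip; fun_prop
  have hs : ∀ i, SigmaFinite ((gm (κ i)).map (fun z => ip z (u i))) := by
    intro i; rw [gm_ip (u i) (hu i)]; infer_instance
  have := Measure.pi_map_pi (μ := fun i => gm (κ i)) (f := fun i (z : κ i → ℝ) => ip z (u i))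
    (fun i => (hm i).aemeasurable)
  rw [this]
  congr 1
  funext i
  exact gm_ip (u i) (hu i)

end Pool.Agent.W202.RS.LAW
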